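import Pool.Agent.Q163.Hm.Key

/-!
# Exposed pairs of the valuations of the maximal minors
-/

set_option autoImplicit false

namespace Q163.Hm

open Finset Matrix

variable {K : Type*} [Field K]

/-- The columns `E k` for `k ∈ S` and `F k` for `k ∉ S`. -/
def chart {n : ℕ} (E F : Matrix (Fin n) (Fin n) K) (S : Finset (Fin n)) :
    Matrix (Fin n) (Fin n) K :=
  Matrix.of fun i k => if k ∈ S then E i k else F i k

lemma sum_symmDiff' {n : ℕ} (l : Fin n → ℝ) (S R : Finset (Fin n)) :
    ∑ i ∈ symmDiff S R, l i = ∑ i ∈ S, l i + ∑ i ∈ R, (if i ∈ S then - l i else l i) := by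
  classical
  have h : ∀ (X : Finset (Fin n)) (f : Fin n → ℝ), ∑ i ∈ X, f i = ∑ i, if i ∈ X then f i else 0 := by
    intro X f
    rw [Finset.sum_ite_mem, Finset.univ_inter]
  rw [h (symmDiff S R), h S, h R, ← Finset.sum_add_distrib]
  refine Finset.sum_congr rfl fun i _ => ?_
  by_cases h1 : i ∈ S <;> by_cases h2 : i ∈ R <;> simp [Finset.mem_symmDiff, h1, h2]

lemma inv_mul_chart {n : ℕ} (E F : Matrix (Fin n) (Fin n) K) (S U : Finset (Fin n))
    (hS : (chart E F S).det ≠ 0) :
    (chart E F S)⁻¹ * chart E F U =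
      colMix ((chart E F S)⁻¹ * chart E F Sᶜ) (symmDiff S U) := by
  classical
  have h1 : (chart E F S)⁻¹ * chart E F S = 1 := Matrix.nonsing_inv_mul _ hS.isUnit
  ext i k
  by_cases hk : k ∈ symmDiff S U
  · simp only [colMix, Matrix.of_apply, hk, if_true, Matrix.mul_apply, chart]
    refine Finset.sum_congr rfl fun j _ => ?_
    rw [Finset.mem_symmDiff] at hk
    congr 1
    rcases hk with ⟨h2, h3⟩ | ⟨h2, h3⟩
    · simp [h2, h3]
    · simp [h2, h3]
  · have h2 : (k ∈ U ↔ k ∈ S) := by
      rw [Finset.mem_symmDiff] at hk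
      tauto
    simp only [colMix, Matrix.of_apply, hk, if_false]
    rw [← h1, Matrix.mul_apply, Matrix.mul_apply]
    refine Finset.sum_congr rfl fun j _ => ?_
    simp [chart, h2]

lemma herm {n : ℕ} (σ : K →+* K) (E F : Matrix (Fin n) (Fin n) K) (v : Fin n → K) (α : K)
    (hiso : ∀ i j, ∑ k, (E i k * σ (F j k) + F i k * σ (E j k)) + α * (v i * σ (v j)) = 0)
    (S : Finset (Fin n)) (hS : (chart E F S).det ≠ 0) (i j : Fin n) :
    ((chart E F S)⁻¹ * chart E F Sᶜ) i j + σ (((chart E F S)⁻¹ * chart E F Sᶜ) j i) +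
      α * (((chart E F S)⁻¹).mulVec v i * σ (((chart E F S)⁻¹).mulVec v j)) = 0 := by
  classical
  set C := chart E F S with hC
  set D := chart E F Sᶜ with hD
  set G := C⁻¹ with hG
  have h1 : G * C = 1 := Matrix.nonsing_inv_mul _ hS.isUnit
  have h0 : C * (D.map σ)ᵀ + D * (C.map σ)ᵀ + α • Matrix.vecMulVec v (fun j => σ (v j)) = 0 := by
    ext i j
    simp only [Matrix.add_apply, Matrix.mul_apply, Matrix.transpose_apply, Matrix.map_apply,
      Matrix.smul_apply, Matrix.vecMulVec_apply, smul_eq_mul, Matrix.zero_apply]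
    rw [← hiso i j, ← Finset.sum_add_distrib]
    congr 1
    refine Finset.sum_congr rfl fun k _ => ?_
    by_cases hk : k ∈ S
    · simp [hC, hD, chart, hk]
    · simp [hC, hD, chart, hk, add_comm]
  have h2 : (C.map σ)ᵀ * (G.map σ)ᵀ = 1 := by
    rw [← Matrix.transpose_mul, ← Matrix.map_mul, h1]
    simp
  have h3 : G * (C * (D.map σ)ᵀ + D * (C.map σ)ᵀ + α • Matrix.vecMulVec v (fun j => σ (v j))) *
      (G.map σ)ᵀ = 0 := by rw [h0]; simp
  have h4 : G * (C * (D.map σ)ᵀ + D * (C.map σ)ᵀ + α • Matrix.vecMulVec v (fun j => σ (v j))) *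
      (G.map σ)ᵀ = ((G * D).map σ)ᵀ + G * D +
        α • (G * Matrix.vecMulVec v (fun j => σ (v j)) * (G.map σ)ᵀ) := by
    rw [Matrix.mul_add, Matrix.mul_add, Matrix.add_mul, Matrix.add_mul]
    congr 1
    · congr 1
      · rw [← Matrix.mul_assoc, h1, Matrix.one_mul, Matrix.map_mul, Matrix.transpose_mul]
      · rw [Matrix.mul_assoc, Matrix.mul_assoc, h2, Matrix.mul_one]
    · rw [Matrix.mul_smul, Matrix.smul_mul]
  rw [h4] at h3
  have h5 := congrFun (congrFun h3 i) j
  simp only [Matrix.add_apply, Matrix.transpose_apply, Matrix.map_apply, Matrix.smul_apply,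
    smul_eq_mul, Matrix.zero_apply] at h5
  have h6 : (G * Matrix.vecMulVec v (fun j => σ (v j)) * (G.map σ)ᵀ) i j =
      G.mulVec v i * σ (G.mulVec v j) := by
    rw [Matrix.mul_vecMulVec, Matrix.vecMulVec_mul, Matrix.vecMulVec_apply]
    congr 1
    simp only [Matrix.vecMul, Matrix.mulVec, dotProduct, Matrix.transpose_apply, Matrix.map_apply,
      map_sum, map_mul]
    exact Finset.sum_congr rfl fun k _ => mul_comm _ _
  rw [h6] at h5
  linear_combination h5

theorem exposed_pair (ν : AddValuation K (WithTop ℝ)) {n : ℕ} (σ : K →+* K)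
    (hν : ∀ a, ν (σ a) = ν a) (E F : Matrix (Fin n) (Fin n) K) (v : Fin n → K) (α : K)
    (hiso : ∀ i j, ∑ k, (E i k * σ (F j k) + F i k * σ (E j k)) + α * (v i * σ (v j)) = 0)
    (S T : Finset (Fin n)) (s t : ℝ) (l : Fin n → ℝ)
    (hs : ν (chart E F S).det = s) (ht : ν (chart E F T).det = t)
    (hST : s + ∑ i ∈ S, l i = t + ∑ i ∈ T, l i)
    (hU : ∀ (U : Finset (Fin n)) (a : ℝ), ν (chart E F U).det = a → U ≠ S → U ≠ T →
      s + ∑ i ∈ S, l i < a + ∑ i ∈ U, l i) :
    (symmDiff S T).card ≤ 2 := by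
  classical
  by_contra hcard
  push Not at hcard
  have hS : (chart E F S).det ≠ 0 := by
    rw [← ν.ne_top_iff, hs]
    exact WithTop.coe_ne_top
  set A := (chart E F S)⁻¹ * chart E F Sᶜ with hA
  set w : Fin n → ℝ := fun i => (if i ∈ S then - l i else l i) / 2 with hw
  have hval : ∀ U, ν (chart E F U).det = s + ν (colMix A (symmDiff S U)).det := by
    intro U
    rw [← hs, ← ν.map_mul, ← inv_mul_chart E F S U hS, Matrix.det_mul, ← mul_assoc,
      ← Matrix.det_mul, Matrix.mul_nonsing_inv _ hS.isUnit, Matrix.det_one, one_mul]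
  have hsum : ∀ R : Finset (Fin n), ∑ i ∈ symmDiff S R, l i = ∑ i ∈ S, l i + 2 * ∑ i ∈ R, w i := by
    intro R
    rw [sum_symmDiff', Finset.mul_sum]
    congr 1
    refine Finset.sum_congr rfl fun i _ => ?_
    simp only [hw]; ring
  have hlt : ∀ R : Finset (Fin n), R ≠ ∅ → R ≠ symmDiff S T →
      ((-(2 * ∑ i ∈ R, w i) : ℝ) : WithTop ℝ) < ν (colMix A R).det := by
    intro R hR1 hR2
    have e : symmDiff S (symmDiff S R) = R := symmDiff_symmDiff_cancel_left S R
    have h1 := hval (symmDiff S R)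
    rw [e] at h1
    induction hx : ν (colMix A R).det with
    | top => exact WithTop.coe_lt_top _
    | coe x =>
      rw [hx, ← WithTop.coe_add] at h1
      have h2 := hU (symmDiff S R) (s + x) h1 (by
        intro h
        apply hR1
        rw [← e, h, symmDiff_self]
        rfl) (by
        intro h
        apply hR2
        rw [← e, h])
      rw [hsum] at h2
      rw [WithTop.coe_lt_coe]
      linarith
  have heq : ν (colMix A (symmDiff S T)).det = ((-(2 * ∑ i ∈ symmDiff S T, w i) : ℝ) : WithTop ℝ) := by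
    have h1 := hval T
    rw [ht] at h1
    induction hx : ν (colMix A (symmDiff S T)).det with
    | top =>
      rw [hx, add_top] at h1
      exact absurd h1 WithTop.coe_ne_top
    | coe x =>
      rw [hx, ← WithTop.coe_add, WithTop.coe_inj] at h1
      rw [WithTop.coe_inj]
      have h2 := hsum (symmDiff S T)
      rw [symmDiff_symmDiff_cancel_left] at h2
      linarith
  have hne : (symmDiff S T).Nonempty := by
    rw [← Finset.card_pos]; omega
  have hent := entries ν σ hν A ((chart E F S)⁻¹.mulVec v) α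
    (fun i j => herm σ E F v α hiso S hS i j) w (symmDiff S T)
    (by
      intro i _
      have := hlt {i} (Finset.singleton_ne_empty i) (by
        intro h
        rw [← h, Finset.card_singleton] at hcard
        omega)
      rwa [colMix_single, Finset.sum_singleton] at this)
    (by
      intro i _ j _ hij
      have := hlt {i, j} (Finset.insert_ne_empty i _) (by
        intro h
        rw [← h, Finset.card_pair hij] at hcard
        omega)
      rw [colMix_pair A i j hij, Finset.sum_pair hij] at this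
      rwa [show -(2 * w i) + -(2 * w j) = -(2 * (w i + w j)) by ring])
  have h := det_lt ν A w (symmDiff S T) hne hent
  rw [heq] at h
  exact lt_irrefl _ h

end Q163.Hm
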