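import Mathlib

/-!
# Regular subdivisions of 0/1 point sets and valuated Delta-matroids
-/

set_option autoImplicit false

namespace Q163.Hm

/-- The indicator vector of `S ⊆ [n]`. -/
def ind {n : ℕ} (S : Finset (Fin n)) : Fin n → ℝ := fun i => if i ∈ S then 1 else 0

/-- The points `(x, p x)` of `ℝ^n × ℝ`, for the 0/1 vectors `x` with `p x ≠ ∞`. -/
def lifted {n : ℕ} (p : Finset (Fin n) → WithTop ℝ) : Set ((Fin n → ℝ) × ℝ) :=
  {q | ∃ (S : Finset (Fin n)) (t : ℝ), p S = t ∧ q = (ind S, t)}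

/-- `G` is a lower face of `P ⊆ ℝ^n × ℝ`: the nonempty set of the points of `P` at which some
linear functional `(x, t) ↦ t + ∑ i, l i * x i` attains its minimum over `P`. -/
def IsLowerFace {n : ℕ} (P G : Set ((Fin n → ℝ) × ℝ)) : Prop :=
  G.Nonempty ∧ ∃ l : Fin n → ℝ, G = {q | q ∈ P ∧ ∀ q' ∈ P,
    q.2 + ∑ i, l i * q.1 i ≤ q'.2 + ∑ i, l i * q'.1 i}

/-- `x` and `y` are the two end points of an edge of the regular subdivision induced by `p`: some
lower face of the convex hull of the lifted points is a segment whose projection to `ℝ^n` is the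
segment from `x` to `y`, where `x ≠ y`. -/
def IsEdge {n : ℕ} (p : Finset (Fin n) → WithTop ℝ) (x y : Fin n → ℝ) : Prop :=
  x ≠ y ∧ ∃ s t : ℝ, IsLowerFace (convexHull ℝ (lifted p)) (segment ℝ (x, s) (y, t))

/-- `p` is a valuated Delta-matroid: every edge of the regular subdivision induced by `p` has
direction `± e_i` or `± (e_i + e_j)` or `e_i - e_j` with `i ≠ j`. -/
def IsValuatedDeltaMatroid {n : ℕ} (p : Finset (Fin n) → WithTop ℝ) : Prop :=
  ∀ x y : Fin n → ℝ, IsEdge p x y →
    (∃ i, y - x = Pi.single i 1 ∨ y - x = -Pi.single i 1) ∨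
    ∃ i j, i ≠ j ∧ (y - x = Pi.single i 1 + Pi.single j 1 ∨
      y - x = -(Pi.single i 1 + Pi.single j 1) ∨ y - x = Pi.single i 1 - Pi.single j 1)

/-- `b` is a Hermitian form on the `K`-vector space `V` with respect to the automorphism `σ`:
biadditive, `b (a x, c y) = a σ(c) b (x, y)` and `b (x, y) = σ (b (y, x))`. -/
structure IsHermitianForm {K V : Type*} [Field K] [AddCommGroup V] [Module K V] (σ : K ≃+* K)
    (b : V → V → K) : Prop where
  add_left : ∀ x y z, b (x + y) z = b x z + b y z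
  add_right : ∀ x y z, b x (y + z) = b x y + b x z
  smul : ∀ (a c : K) (x y : V), b (a • x) (c • y) = a * σ c * b x y
  herm : ∀ x y, b x y = σ (b y x)

/-- The basis `e_1, …, e_n, f_1, …, f_n, g` is a Witt basis for `b`: `b (e_i, f_i) = 1`,
`b (g, g) = α`, and all other values of `b` on basis vectors, up to symmetry, are `0`. -/
structure IsWittBasis {K V : Type*} [Field K] [AddCommGroup V] [Module K V] {n : ℕ}
    (b : V → V → K) (α : K) (B : Module.Basis (Fin n ⊕ Fin n ⊕ Unit) K V) : Prop where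
  ee : ∀ i j : Fin n, b (B (Sum.inl i)) (B (Sum.inl j)) = 0
  ff : ∀ i j : Fin n, b (B (Sum.inr (Sum.inl i))) (B (Sum.inr (Sum.inl j))) = 0
  ef : ∀ i j : Fin n, b (B (Sum.inl i)) (B (Sum.inr (Sum.inl j))) = if i = j then 1 else 0
  eg : ∀ i : Fin n, b (B (Sum.inl i)) (B (Sum.inr (Sum.inr ()))) = 0
  fg : ∀ i : Fin n, b (B (Sum.inr (Sum.inl i))) (B (Sum.inr (Sum.inr ()))) = 0
  gg : b (B (Sum.inr (Sum.inr ()))) (B (Sum.inr (Sum.inr ()))) = α

/-- The maximal minor of the coordinate matrix of the vectors `u 1, …, u n`, on the columns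
`e_i` for `i ∈ S` and `f_i` for `i ∉ S`. -/
noncomputable def minor {K V : Type*} [Field K] [AddCommGroup V] [Module K V] {n : ℕ}
    (B : Module.Basis (Fin n ⊕ Fin n ⊕ Unit) K V) (u : Fin n → V) (S : Finset (Fin n)) : K :=
  (Matrix.of fun i k : Fin n =>
    B.repr (u i) (if k ∈ S then Sum.inl k else Sum.inr (Sum.inl k))).det

end Q163.Hm
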