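import Pool.Agent.Q163.Hm.Defs
import Pool.Agent.Q163.Hm.Chart

/-!
# From edges of the subdivision to exposed pairs, and back to directions
-/

set_option autoImplicit false

namespace Q163.Hm

open Finset

variable {n : ℕ}

lemma ind_inj {S T : Finset (Fin n)} (h : ind S = ind T) : S = T := by
  ext i
  have := congrFun h i
  by_cases h1 : i ∈ S <;> by_cases h2 : i ∈ T <;> simp_all [ind]

lemma sum_ind (l : Fin n → ℝ) (S : Finset (Fin n)) : ∑ i, l i * ind S i = ∑ i ∈ S, l i := by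
  simp [ind]

lemma conv_eq {a x y μ ν : ℝ} (hμ : 0 < μ) (hν : 0 < ν) (hs : μ + ν = 1)
    (h : a = μ * x + ν * y) (hx : a ≤ x) (hy : a ≤ y) : x = a ∧ y = a := by
  have h1 : μ * (x - a) + ν * (y - a) = 0 := by linear_combination (-1 : ℝ) * h - a * hs
  have h2 : 0 ≤ μ * (x - a) := mul_nonneg hμ.le (sub_nonneg.2 hx)
  have h3 : 0 ≤ ν * (y - a) := mul_nonneg hν.le (sub_nonneg.2 hy)
  have h4 : μ * (x - a) = 0 := by linarith
  have h5 : ν * (y - a) = 0 := by linarith
  exact ⟨sub_eq_zero.1 ((mul_eq_zero.1 h4).resolve_left hμ.ne'),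
    sub_eq_zero.1 ((mul_eq_zero.1 h5).resolve_left hν.ne')⟩

lemma end_mem {p : Finset (Fin n) → WithTop ℝ} {a c : (Fin n → ℝ) × ℝ} (hac : a ≠ c)
    (l : Fin n → ℝ)
    (h : segment ℝ a c = {q | q ∈ convexHull ℝ (lifted p) ∧ ∀ q' ∈ convexHull ℝ (lifted p),
      q.2 + ∑ i, l i * q.1 i ≤ q'.2 + ∑ i, l i * q'.1 i}) : a ∈ lifted p := by
  have hmem : ∀ q, q ∈ segment ℝ a c → q ∈ convexHull ℝ (lifted p) ∧
      ∀ q' ∈ convexHull ℝ (lifted p), q.2 + ∑ i, l i * q.1 i ≤ q'.2 + ∑ i, l i * q'.1 i := by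
    intro q hq
    rw [h] at hq
    exact hq
  have ha := hmem a (left_mem_segment ℝ a c)
  apply extremePoints_convexHull_subset (𝕜 := ℝ)
  rw [mem_extremePoints]
  refine ⟨ha.1, ?_⟩
  intro x hx y hy hxy
  obtain ⟨μ, ν, hμ, hν, hμν, hsum⟩ := hxy
  have hlin : a.2 + ∑ i, l i * a.1 i = μ * (x.2 + ∑ i, l i * x.1 i) +
      ν * (y.2 + ∑ i, l i * y.1 i) := by
    rw [← hsum]
    simp only [Prod.snd_add, Prod.smul_snd, smul_eq_mul, Prod.fst_add, Prod.smul_fst, Pi.add_apply,
      Pi.smul_apply, mul_add, Finset.mul_sum, Finset.sum_add_distrib]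
    have e1 : ∑ i, l i * (μ * x.1 i) = ∑ i, μ * (l i * x.1 i) :=
      Finset.sum_congr rfl fun i _ => by ring
    have e2 : ∑ i, l i * (ν * y.1 i) = ∑ i, ν * (l i * y.1 i) :=
      Finset.sum_congr rfl fun i _ => by ring
    rw [e1, e2]
    ring
  have h1 := ha.2 x hx
  have h2 := ha.2 y hy
  obtain ⟨hx', hy'⟩ := conv_eq hμ hν hμν hlin h1 h2
  have hxs : x ∈ segment ℝ a c := by
    rw [h]
    exact ⟨hx, fun q' hq' => by rw [hx']; exact ha.2 q' hq'⟩
  have hys : y ∈ segment ℝ a c := by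
    rw [h]
    exact ⟨hy, fun q' hq' => by rw [hy']; exact ha.2 q' hq'⟩
  rw [segment_eq_image'] at hxs hys
  obtain ⟨u, ⟨hu0, hu1⟩, rfl⟩ := hxs
  obtain ⟨v, ⟨hv0, hv1⟩, rfl⟩ := hys
  have hca : c - a ≠ 0 := sub_ne_zero.2 (Ne.symm hac)
  have h3 : (μ * u + ν * v) • (c - a) = 0 := by
    have : μ • (a + u • (c - a)) + ν • (a + v • (c - a)) =
        (μ + ν) • a + (μ * u + ν * v) • (c - a) := by
      module
    rw [this, hμν, one_smul] at hsum
    exact add_eq_left.1 hsum
  have h4 : μ * u + ν * v = 0 := (smul_eq_zero.1 h3).resolve_right hca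
  have h5 : 0 ≤ μ * u := by positivity
  have h6 : 0 ≤ ν * v := by positivity
  have h7 : μ * u = 0 := by linarith
  have h8 : ν * v = 0 := by linarith
  have hu : u = 0 := (mul_eq_zero.1 h7).resolve_left hμ.ne'
  have hv : v = 0 := (mul_eq_zero.1 h8).resolve_left hν.ne'
  subst hu hv
  simp

lemma exposed_of_edge {p : Finset (Fin n) → WithTop ℝ} {x y : Fin n → ℝ} (h : IsEdge p x y) :
    ∃ (S T : Finset (Fin n)) (s t : ℝ) (l : Fin n → ℝ), S ≠ T ∧ x = ind S ∧ y = ind T ∧
      p S = s ∧ p T = t ∧ s + ∑ i ∈ S, l i = t + ∑ i ∈ T, l i ∧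
      ∀ (U : Finset (Fin n)) (a : ℝ), p U = a → U ≠ S → U ≠ T →
        s + ∑ i ∈ S, l i < a + ∑ i ∈ U, l i := by
  obtain ⟨hxy, s, t, -, l, hl⟩ := h
  have hne : ((x, s) : (Fin n → ℝ) × ℝ) ≠ (y, t) := fun h => hxy (congrArg Prod.fst h)
  have ha := end_mem hne l hl
  have hc := end_mem (Ne.symm hne) l (by rw [segment_symm]; exact hl)
  obtain ⟨S, s', hS, hSe⟩ := ha
  obtain ⟨T, t', hT, hTe⟩ := hc
  simp only [Prod.mk.injEq] at hSe hTe
  obtain ⟨rfl, rfl⟩ := hSe
  obtain ⟨rfl, rfl⟩ := hTe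
  have hST : S ≠ T := fun h => hxy (by rw [h])
  have hmem : ∀ q, q ∈ segment ℝ (ind S, s) (ind T, t) ↔ q ∈ convexHull ℝ (lifted p) ∧
      ∀ q' ∈ convexHull ℝ (lifted p), q.2 + ∑ i, l i * q.1 i ≤ q'.2 + ∑ i, l i * q'.1 i := by
    intro q
    rw [hl]
    rfl
  have h1 := (hmem _).1 (left_mem_segment ℝ (ind S, s) (ind T, t))
  have h2 := (hmem _).1 (right_mem_segment ℝ (ind S, s) (ind T, t))
  have h3 := h1.2 _ h2.1
  have h4 := h2.2 _ h1.1
  simp only [sum_ind] at h3 h4
  refine ⟨S, T, s, t, l, hST, rfl, rfl, hS, hT, le_antisymm h3 h4, ?_⟩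
  intro U a hU hUS hUT
  have hq : ((ind U, a) : (Fin n → ℝ) × ℝ) ∈ convexHull ℝ (lifted p) :=
    subset_convexHull ℝ _ ⟨U, a, hU, rfl⟩
  have h5 := h1.2 _ hq
  simp only [sum_ind] at h5
  refine lt_of_le_of_ne h5 fun heq => ?_
  have h6 : ((ind U, a) : (Fin n → ℝ) × ℝ) ∈ segment ℝ (ind S, s) (ind T, t) := by
    rw [hmem]
    refine ⟨hq, fun q' hq' => ?_⟩
    have := h1.2 q' hq'
    simp only [sum_ind] at this ⊢
    rw [← heq]
    exact this
  rw [segment_eq_image'] at h6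
  obtain ⟨u, ⟨hu0, hu1⟩, hu⟩ := h6
  have hu' : ∀ i, ind S i + u * (ind T i - ind S i) = ind U i := by
    intro i
    have := congrFun (congrArg Prod.fst hu) i
    simpa using this
  obtain ⟨i, hi⟩ : ∃ i, ind S i ≠ ind T i := by
    by_contra hcon
    push Not at hcon
    exact hST (ind_inj (funext hcon))
  have h01 : ∀ (X : Finset (Fin n)) (i : Fin n), ind X i = 0 ∨ ind X i = 1 := by
    intro X i
    unfold ind
    by_cases hX : i ∈ X
    · right; simp [hX]
    · left; simp [hX]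
  have hu01 : u = 0 ∨ u = 1 := by
    have := hu' i
    rcases h01 S i with a1 | a1 <;> rcases h01 T i with a2 | a2 <;>
      rcases h01 U i with a3 | a3 <;> rw [a1, a2, a3] at this <;>
      first
      | exact absurd (a1.trans a2.symm) hi
      | (left; linarith)
      | (right; linarith)
  rcases hu01 with rfl | rfl
  · apply hUS
    apply ind_inj
    funext i
    rw [← hu' i]; ring
  · apply hUT
    apply ind_inj
    funext i
    rw [← hu' i]; ring

lemma direction {S T : Finset (Fin n)} (hST : S ≠ T) (hc : (symmDiff S T).card ≤ 2) :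
    (∃ i, ind T - ind S = Pi.single i 1 ∨ ind T - ind S = -Pi.single i 1) ∨
    ∃ i j, i ≠ j ∧ (ind T - ind S = Pi.single i 1 + Pi.single j 1 ∨
      ind T - ind S = -(Pi.single i 1 + Pi.single j 1) ∨
      ind T - ind S = Pi.single i 1 - Pi.single j 1) := by
  classical
  have hne : (symmDiff S T).Nonempty := by
    rw [Finset.nonempty_iff_ne_empty]
    intro h
    exact hST (symmDiff_eq_bot.1 h)
  have hpos := Finset.card_pos.2 hne
  have hval : ∀ k, (ind T - ind S) k = if k ∈ symmDiff S T then (if k ∈ T then 1 else -1) else 0 := by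
    intro k
    by_cases h1 : k ∈ S <;> by_cases h2 : k ∈ T <;> simp [ind, Finset.mem_symmDiff, h1, h2]
  rcases (by omega : (symmDiff S T).card = 1 ∨ (symmDiff S T).card = 2) with h | h
  · left
    obtain ⟨i, hi⟩ := Finset.card_eq_one.1 h
    refine ⟨i, ?_⟩
    by_cases hiT : i ∈ T
    · left
      funext k
      rw [hval]
      simp only [hi, Finset.mem_singleton]
      by_cases hk : k = i
      · subst hk; simp [hiT]
      · simp [hk]
    · right
      funext k
      rw [hval]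
      simp only [hi, Finset.mem_singleton]
      by_cases hk : k = i
      · subst hk; simp [hiT]
      · simp [hk]
  · right
    obtain ⟨i, j, hij, he⟩ := Finset.card_eq_two.1 h
    have key : ind T - ind S = (if i ∈ T then (1 : ℝ) else -1) • Pi.single i (1 : ℝ) +
        (if j ∈ T then (1 : ℝ) else -1) • Pi.single j (1 : ℝ) := by
      funext k
      rw [hval]
      simp only [he, Finset.mem_insert, Finset.mem_singleton, Pi.add_apply, Pi.smul_apply,
        smul_eq_mul, Pi.single_apply]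
      by_cases hk : k = i
      · subst hk; simp [hij]
      · by_cases hk' : k = j
        · subst hk'; simp [hk]
        · simp [hk, hk']
    by_cases hiT : i ∈ T <;> by_cases hjT : j ∈ T
    · exact ⟨i, j, hij, Or.inl (by rw [key]; simp [hiT, hjT])⟩
    · exact ⟨i, j, hij, Or.inr (Or.inr (by rw [key]; simp [hiT, hjT, sub_eq_add_neg]))⟩
    · exact ⟨j, i, Ne.symm hij, Or.inr (Or.inr (by
        rw [key]; simp [hiT, hjT, sub_eq_add_neg, add_comm]))⟩
    · exact ⟨i, j, hij, Or.inr (Or.inl (by rw [key]; simp [hiT, hjT, add_comm]))⟩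

end Q163.Hm
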