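import Mathlib

/-!
# The key estimate: valuations of the entries from valuations of small principal minors
-/

set_option autoImplicit false

namespace Q163.Hm

open Finset Matrix

lemma coe_add_lt {a b : ℝ} {X Y : WithTop ℝ} (hX : (a : WithTop ℝ) < X) (hY : (b : WithTop ℝ) < Y) :
    ((a + b : ℝ) : WithTop ℝ) < X + Y := by
  induction X with
  | top => rw [top_add]; exact WithTop.coe_lt_top _
  | coe x =>
    induction Y with
    | top => rw [add_top]; exact WithTop.coe_lt_top _
    | coe y =>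
      rw [WithTop.coe_lt_coe] at hX hY
      rw [← WithTop.coe_add, WithTop.coe_lt_coe]
      linarith

lemma mid {a b c : WithTop ℝ} {x y : ℝ} (h1 : ((-(2 * x) : ℝ) : WithTop ℝ) < a + (b + b))
    (h2 : ((-(2 * y) : ℝ) : WithTop ℝ) < a + (c + c)) :
    ((-(x + y) : ℝ) : WithTop ℝ) < a + (b + c) := by
  induction a with
  | top => rw [top_add]; exact WithTop.coe_lt_top _
  | coe a =>
    induction b with
    | top => rw [top_add, add_top]; exact WithTop.coe_lt_top _
    | coe b =>
      induction c with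
      | top => rw [add_top, add_top]; exact WithTop.coe_lt_top _
      | coe c =>
        rw [← WithTop.coe_add, ← WithTop.coe_add, WithTop.coe_lt_coe] at h1 h2 ⊢
        linarith

variable {K : Type*} [Field K] (ν : AddValuation K (WithTop ℝ))

theorem entries {ι : Type*} (σ : K →+* K) (hν : ∀ a, ν (σ a) = ν a) (A : Matrix ι ι K)
    (u : ι → K) (α : K) (hA : ∀ i j, A i j + σ (A j i) + α * (u i * σ (u j)) = 0)
    (w : ι → ℝ) (T : Finset ι)
    (h1 : ∀ i ∈ T, ((-(2 * w i) : ℝ) : WithTop ℝ) < ν (A i i))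
    (h2 : ∀ i ∈ T, ∀ j ∈ T, i ≠ j →
      ((-(2 * w i) + -(2 * w j) : ℝ) : WithTop ℝ) < ν (A i i * A j j - A i j * A j i)) :
    ∀ i ∈ T, ∀ j ∈ T, ((-(w i + w j) : ℝ) : WithTop ℝ) < ν (A i j) := by
  intro i hi j hj
  by_cases hij : i = j
  · subst hij
    have := h1 i hi
    rwa [show -(w i + w i) = -(2 * w i) by ring]
  have hd : ∀ k ∈ T, ((-(2 * w k) : ℝ) : WithTop ℝ) < ν α + (ν (u k) + ν (u k)) := by
    intro k hk
    have e : α * (u k * σ (u k)) = -(A k k + σ (A k k)) := by
      linear_combination hA k k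
    have h3 : ν α + (ν (u k) + ν (u k)) = ν (A k k + σ (A k k)) := by
      rw [← ν.map_neg (A k k + σ (A k k)), ← e, ν.map_mul, ν.map_mul, hν]
    rw [h3]
    refine ν.map_lt_add (h1 k hk) ?_
    rw [hν]; exact h1 k hk
  have hm := mid (hd i hi) (hd j hj)
  have hm' : ((-(w i + w j) : ℝ) : WithTop ℝ) < ν (α * (u i * σ (u j))) := by
    rw [ν.map_mul, ν.map_mul, hν]; exact hm
  by_contra hcon
  rw [not_lt] at hcon
  have h4 : ν (A j i) = ν (A i j) := by
    have e : σ (A j i) = -(A i j + α * (u i * σ (u j))) := by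
      linear_combination hA i j
    rw [← hν (A j i), e, ν.map_neg]
    exact ν.map_add_eq_of_lt_left (hcon.trans_lt hm')
  have h5 : ((-(2 * w i) + -(2 * w j) : ℝ) : WithTop ℝ) < ν (A i j * A j i) := by
    have e : A i j * A j i = A i i * A j j + -(A i i * A j j - A i j * A j i) := by ring
    rw [e]
    refine ν.map_lt_add ?_ ?_
    · rw [ν.map_mul]
      exact coe_add_lt (h1 i hi) (h1 j hj)
    · rw [ν.map_neg]
      exact h2 i hi j hj hij
  rw [ν.map_mul, h4] at h5
  obtain ⟨x, hx⟩ : ∃ x : ℝ, ν (A i j) = x := by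
    have : ν (A i j) ≠ ⊤ := ne_top_of_le_ne_top WithTop.coe_ne_top hcon
    exact ⟨_, (WithTop.coe_untop _ this).symm⟩
  rw [hx, WithTop.coe_le_coe] at hcon
  rw [hx, ← WithTop.coe_add, WithTop.coe_lt_coe] at h5
  linarith

/-- The matrix with the columns of `A` in the positions of `T` and those of the identity
elsewhere. -/
def colMix {n : ℕ} (A : Matrix (Fin n) (Fin n) K) (T : Finset (Fin n)) :
    Matrix (Fin n) (Fin n) K :=
  Matrix.of fun i k => if k ∈ T then A i k else (1 : Matrix (Fin n) (Fin n) K) i k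

lemma det_inst {m R : Type*} [CommRing R] (D₁ D₂ : DecidableEq m) (F₁ F₂ : Fintype m)
    (M : Matrix m m R) : @Matrix.det m D₁ F₁ R _ M = @Matrix.det m D₂ F₂ R _ M := by
  rw [Subsingleton.elim D₁ D₂, Subsingleton.elim F₁ F₂]

lemma colMix_det {n : ℕ} (A : Matrix (Fin n) (Fin n) K) (T : Finset (Fin n)) :
    (colMix A T).det = (A.submatrix (Subtype.val : {k // k ∈ T} → Fin n) Subtype.val).det := by
  classical
  rw [Matrix.twoBlockTriangular_det' (colMix A T) (fun k => k ∈ T)]
  · have e1 : (colMix A T).toSquareBlockProp (fun k => k ∈ T) =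
        A.submatrix (Subtype.val : {k // k ∈ T} → Fin n) Subtype.val := by
      ext ⟨i, hi⟩ ⟨j, hj⟩
      simp [colMix, Matrix.toSquareBlockProp, hj]
    have e2 : (colMix A T).toSquareBlockProp (fun k => ¬ k ∈ T) = 1 := by
      ext ⟨i, hi⟩ ⟨j, hj⟩
      simp [colMix, Matrix.toSquareBlockProp, hj, Matrix.one_apply]
    rw [e1, e2, Matrix.det_one, mul_one]
    exact det_inst _ _ _ _ _
  · intro i hi j hj
    have : i ≠ j := fun h => hj (h ▸ hi)
    simp [colMix, hj, this]

lemma colMix_single {n : ℕ} (A : Matrix (Fin n) (Fin n) K) (i : Fin n) :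
    (colMix A {i}).det = A i i := by
  rw [colMix_det]
  have hu : Unique {k // k ∈ ({i} : Finset (Fin n))} :=
    ⟨⟨⟨i, by simp⟩⟩, fun ⟨k, hk⟩ => by simpa using hk⟩
  rw [Matrix.det_eq_elem_of_subsingleton _ ⟨i, by simp⟩]
  rfl

lemma colMix_pair {n : ℕ} (A : Matrix (Fin n) (Fin n) K) (i j : Fin n) (hij : i ≠ j) :
    (colMix A {i, j}).det = A i i * A j j - A i j * A j i := by
  classical
  rw [colMix_det]
  let f : Fin 2 → {k // k ∈ ({i, j} : Finset (Fin n))} := ![⟨i, by simp⟩, ⟨j, by simp⟩]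
  have hf : Function.Bijective f := by
    constructor
    · intro a b hab
      fin_cases a <;> fin_cases b
      · rfl
      · exact absurd (congrArg Subtype.val hab) hij
      · exact absurd (congrArg Subtype.val hab) (Ne.symm hij)
      · rfl
    · rintro ⟨k, hk⟩
      rw [Finset.mem_insert, Finset.mem_singleton] at hk
      rcases hk with rfl | rfl
      · exact ⟨0, rfl⟩
      · exact ⟨1, rfl⟩
  rw [← Matrix.det_submatrix_equiv_self (Equiv.ofBijective f hf), Matrix.det_fin_two]
  rfl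

theorem det_lt {n : ℕ} (A : Matrix (Fin n) (Fin n) K) (w : Fin n → ℝ) (T : Finset (Fin n))
    (hT : T.Nonempty)
    (h : ∀ i ∈ T, ∀ j ∈ T, ((-(w i + w j) : ℝ) : WithTop ℝ) < ν (A i j)) :
    ((-(2 * ∑ i ∈ T, w i) : ℝ) : WithTop ℝ) < ν (colMix A T).det := by
  classical
  rw [colMix_det, Matrix.det_apply]
  refine ν.map_lt_sum WithTop.coe_ne_top fun π _ => ?_
  have h1 : ν (Equiv.Perm.sign π • ∏ k : {k // k ∈ T}, (A.submatrix Subtype.val Subtype.val) (π k) k)
      = ν (∏ k : {k // k ∈ T}, (A.submatrix Subtype.val Subtype.val) (π k) k) := by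
    rcases Int.units_eq_one_or (Equiv.Perm.sign π) with hs | hs
    · rw [hs, one_smul]
    · rw [hs, Units.neg_smul, one_smul, ν.map_neg]
  rw [h1]
  have h2 : ∀ (s : Finset {k // k ∈ T}), s.Nonempty →
      ((∑ k ∈ s, (-(w (π k).1 + w k.1)) : ℝ) : WithTop ℝ) <
        ν (∏ k ∈ s, (A.submatrix Subtype.val Subtype.val) (π k) k) := by
    intro s hs
    induction hs using Finset.Nonempty.cons_induction with
    | singleton a =>
      rw [Finset.sum_singleton, Finset.prod_singleton]
      exact h _ (π a).2 _ a.2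
    | cons a s ha hs ih =>
      rw [Finset.sum_cons, Finset.prod_cons, ν.map_mul]
      exact coe_add_lt (h _ (π a).2 _ a.2) ih
  have hne : (Finset.univ : Finset {k // k ∈ T}).Nonempty := by
    obtain ⟨i, hi⟩ := hT
    exact ⟨⟨i, hi⟩, Finset.mem_univ _⟩
  have h3 := h2 Finset.univ hne
  have h4 : ∑ k : {k // k ∈ T}, (-(w (π k).1 + w k.1)) = -(2 * ∑ i ∈ T, w i) := by
    rw [Finset.sum_neg_distrib, Finset.sum_add_distrib]
    have e1 : ∑ k : {k // k ∈ T}, w (π k).1 = ∑ k : {k // k ∈ T}, w k.1 :=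
      Equiv.sum_comp π (fun k : {k // k ∈ T} => w k.1)
    have e2 : ∑ k : {k // k ∈ T}, w k.1 = ∑ i ∈ T, w i := Finset.sum_coe_sort T w
    rw [e1, e2]; ring
  rwa [h4] at h3

end Q163.Hm
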